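import Mathlib
import Pool.Agent.TH647.NR.Rank

set_option autoImplicit false

/-!
# Near relations between `ζ(2) ζ(3)` and `ζ(2), ζ(3), ζ(4), ζ(5)`
-/

namespace Pool.Agent.R465.ZP

open Pool.Agent.TH647.NR Pool.Agent.W472.AC

/-- the zeta value -/
noncomputable def Z (k : ℕ) : ℝ := ∑' n : ℕ, 1 / ((n : ℝ) + 1) ^ k

lemma hasSum_of {k : ℕ} {s : ℝ} (hk : k ≠ 0) (h : HasSum (fun n : ℕ => 1 / (n : ℝ) ^ k) s) :
    Z k = s := by
  have h1 := (hasSum_nat_add_iff' 1).2 h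
  rw [Finset.sum_range_one] at h1
  simp only [Nat.cast_zero, ne_eq, hk, not_false_eq_true, zero_pow, div_zero, sub_zero] at h1
  have h2 : HasSum (fun n : ℕ => 1 / ((n : ℝ) + 1) ^ k) s := by
    refine h1.congr_fun fun n => ?_
    push_cast
    rfl
  exact h2.tsum_eq

lemma Z2 : Z 2 = Real.pi ^ 2 / 6 := hasSum_of (by norm_num) hasSum_zeta_two

lemma Z4 : Z 4 = Real.pi ^ 4 / 90 := hasSum_of (by norm_num) hasSum_zeta_four

lemma Z4_eq : Z 4 = 2 / 5 * Z 2 ^ 2 := by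
  rw [Z2, Z4]
  ring

lemma Z2_pos : 0 < Z 2 := by
  rw [Z2]
  positivity

lemma Z2_ge : 1 ≤ Z 2 := by
  rw [Z2]
  nlinarith [Real.pi_gt_three]

/-- the measure -/
def M (κ : ℝ) : Prop := ∃ c : ℝ, 0 < c ∧ ∀ a b d : ℤ, ∀ H : ℝ, 1 ≤ H → ¬ (a = 0 ∧ b = 0 ∧ d = 0) →
  |(b : ℝ)| ≤ H → |(d : ℝ)| ≤ H → c * H ^ (-κ) ≤ |(a : ℝ) + b * Z 2 + d * Z 3|

/-- the linear form -/
noncomputable def form (v : Fin 5 → ℝ) : ℝ :=
  v 0 * (Z 2 * Z 3) + v 1 * Z 2 + v 2 * Z 3 + v 3 * Z 4 + v 4 * Z 5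

/-- independence of `ζ(2) ζ(3), ζ(2), ζ(4)` over the rational numbers -/
lemma indepQ (LI : LinearIndependent ℚ ![(1 : ℝ), Z 2, Z 3]) (x a c : ℚ)
    (h : (x : ℝ) * (Z 2 * Z 3) + a * Z 2 + c * Z 4 = 0) : x = 0 ∧ a = 0 ∧ c = 0 := by
  rw [Fintype.linearIndependent_iff] at LI
  have h0 : ((a : ℝ) + 2 / 5 * c * Z 2 + x * Z 3) * Z 2 = 0 := by
    rw [Z4_eq] at h
    linarith
  have h00 := (mul_eq_zero.1 h0).resolve_right Z2_pos.ne'
  have h1 := LI ![a, 2 / 5 * c, x] (by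
    rw [Fin.sum_univ_three]
    simp only [Matrix.cons_val_zero, Matrix.cons_val_one, Matrix.cons_val, Rat.smul_def]
    push_cast
    linarith)
  have e0 := h1 0
  have e1 := h1 1
  have e2 := h1 2
  simp only [Matrix.cons_val_zero, Matrix.cons_val_one, Matrix.cons_val] at e0 e1 e2
  exact ⟨e2, e0, by linarith⟩

/-- the rational relations form a space of dimension at most two -/
theorem rank_le (LI : LinearIndependent ℚ ![(1 : ℝ), Z 2, Z 3]) (W : Submodule ℚ (Fin 5 → ℚ))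
    (hW : ∀ v ∈ W, (form fun i => (v i : ℝ)) = 0) : Module.finrank ℚ W ≤ 2 := by
  obtain ⟨f, hf⟩ : ∃ f : (Fin 5 → ℚ) →ₗ[ℚ] (Fin 2 → ℚ), ∀ v, f v = ![v 2, v 4] :=
    ⟨LinearMap.pi ![LinearMap.proj 2, LinearMap.proj 4], fun v => by
      funext i
      fin_cases i <;> rfl⟩
  have hinj : Function.Injective (f.comp W.subtype) := by
    rw [← LinearMap.ker_eq_bot, LinearMap.ker_eq_bot']
    rintro ⟨v, hv⟩ h
    rw [LinearMap.comp_apply, Submodule.subtype_apply, hf] at h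
    have h2 : v 2 = 0 := congrFun h 0
    have h4 : v 4 = 0 := congrFun h 1
    have h0 := hW v hv
    unfold form at h0
    simp only [h2, h4, Rat.cast_zero, zero_mul, add_zero] at h0
    have h1 := indepQ LI (v 0) (v 1) (v 3) h0
    ext i
    simp only [ZeroMemClass.coe_zero, Pi.zero_apply]
    fin_cases i
    · exact h1.1
    · exact h1.2.1
    · exact h2
    · exact h1.2.2
    · exact h4
  have := LinearMap.finrank_le_finrank_of_injective hinj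
  rwa [Module.finrank_fintype_fun_eq_card, Fintype.card_fin] at this

/-- linear forms in `ζ(2) ζ(3), ζ(2), ζ(4)` -/
theorem part1 {κ : ℝ} (h : M κ) : ∃ c : ℝ, 0 < c ∧ ∀ (q A C : ℤ) (H : ℝ), 0 < q →
    (q : ℝ) ≤ H → |(C : ℝ)| ≤ H →
      c * H ^ (-(κ + 1)) ≤ |Z 2 * Z 3 - ((A : ℝ) / q * Z 2 + (C : ℝ) / q * Z 4)| := by
  obtain ⟨c, hc, h1⟩ := h
  refine ⟨c / (5 * 5 ^ κ), by positivity, fun q A C H hq hqH hCH => ?_⟩
  have hq1 : (1 : ℝ) ≤ q := by exact_mod_cast hq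
  have hH : 1 ≤ H := hq1.trans hqH
  have hH0 : 0 < H := by linarith
  have h2 := h1 (-5 * A) (-2 * C) (5 * q) (5 * H) (by linarith) (by
      rintro ⟨-, -, h3⟩
      omega) (by
      push_cast
      rw [abs_mul, abs_neg, abs_of_pos (by norm_num : (0 : ℝ) < 2)]
      linarith) (by
      push_cast
      rw [abs_mul, abs_of_pos (by norm_num : (0 : ℝ) < 5), abs_of_pos (by linarith)]
      linarith)
  have e1 : ((-5 * A : ℤ) : ℝ) + ((-2 * C : ℤ) : ℝ) * Z 2 + ((5 * q : ℤ) : ℝ) * Z 3 =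
      5 * q / Z 2 * (Z 2 * Z 3 - ((A : ℝ) / q * Z 2 + (C : ℝ) / q * Z 4)) := by
    rw [Z4_eq]
    push_cast
    have := Z2_pos.ne'
    field_simp
    ring
  rw [e1, abs_mul, abs_of_pos (by have := Z2_pos; positivity)] at h2
  have h3 : 5 * (q : ℝ) / Z 2 ≤ 5 * H := by
    rw [div_le_iff₀ Z2_pos]
    nlinarith [Z2_ge]
  have h4 : c * (5 * H) ^ (-κ) ≤ 5 * H * |Z 2 * Z 3 - ((A : ℝ) / q * Z 2 + (C : ℝ) / q * Z 4)| :=
    h2.trans (mul_le_mul_of_nonneg_right h3 (abs_nonneg _))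
  have h5 : c / (5 * 5 ^ κ) * H ^ (-(κ + 1)) * (5 * H) = c * (5 * H) ^ (-κ) := by
    rw [neg_add, Real.rpow_add hH0, Real.rpow_neg_one, Real.mul_rpow (by norm_num) hH0.le,
      Real.rpow_neg (by norm_num : (0 : ℝ) ≤ 5)]
    field_simp
  have h6 : (c / (5 * 5 ^ κ) * H ^ (-(κ + 1))) * (5 * H) ≤
      |Z 2 * Z 3 - ((A : ℝ) / q * Z 2 + (C : ℝ) / q * Z 4)| * (5 * H) := by
    rw [h5]
    linarith
  exact le_of_mul_le_mul_right h6 (by positivity)

/-- the measure in the form used by the rank bound -/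
lemma meas_of {κ c : ℝ} (hc : 0 < c) (h : ∀ a b d : ℤ, ∀ H : ℝ, 1 ≤ H →
    ¬ (a = 0 ∧ b = 0 ∧ d = 0) → |(b : ℝ)| ≤ H → |(d : ℝ)| ≤ H →
      c * H ^ (-κ) ≤ |(a : ℝ) + b * Z 2 + d * Z 3|) :
    Meas (![1, Z 2, Z 3] : Fin (2 + 1) → ℝ) κ c := by
  intro a ha H hH haH
  have hH0 : 0 < H := by linarith
  have h0 : ¬ (a 0 = 0 ∧ a 1 = 0 ∧ a 2 = 0) := by
    rintro ⟨h1, h2, h3⟩
    apply ha
    funext i
    fin_cases i
    · exact h1
    · exact h2
    · exact h3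
  have h1 := h (a 0) (a 1) (a 2) H hH h0 (haH 1) (haH 2)
  have e : ∑ j, (a j : ℝ) * (![1, Z 2, Z 3] : Fin (2 + 1) → ℝ) j =
      (a 0 : ℝ) + a 1 * Z 2 + a 2 * Z 3 := by
    rw [Fin.sum_univ_three]
    simp
  rw [e]
  have h2 : H ^ κ * (c * H ^ (-κ)) = c := by
    rw [Real.rpow_neg hH0.le]
    have : H ^ κ ≠ 0 := by positivity
    field_simp
  calc c = H ^ κ * (c * H ^ (-κ)) := h2.symm
    _ ≤ _ := mul_le_mul_of_nonneg_left h1 (by positivity)

/-- **the rank of the near relations** -/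
theorem part2 {κ : ℝ} (h : M κ) : ∃ c : ℝ, 0 < c ∧ ∀ X : ℝ, 1 ≤ X →
    ∀ v : Fin 3 → Fin 5 → ℤ, LinearIndependent ℤ v → (∀ k i, |(v k i : ℝ)| ≤ X) →
      ∃ k, c * X ^ (-(2 + 3 * κ)) ≤ |form fun i => (v k i : ℝ)| := by
  obtain ⟨c, hc, h1⟩ := h
  obtain ⟨c', hc', h2⟩ := rank_bound _ κ c hc (meas_of hc h1) 2
  refine ⟨c' / (5 * 5 ^ (2 + 3 * κ)), by positivity, fun X hX v hv hvX => ?_⟩
  have hX0 : 0 < X := by linarith
  obtain ⟨u, hu⟩ : ∃ u : Fin 3 → (Fin (2 + 1) → ℤ) × (Fin 2 → ℤ),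
      u = fun k => (![5 * v k 1, 2 * v k 3, 5 * v k 0], ![5 * v k 2, 5 * v k 4]) := ⟨_, rfl⟩
  have huli : LinearIndependent ℤ u := by
    rw [Fintype.linearIndependent_iff] at hv ⊢
    intro g hg
    apply hv g
    funext i
    rw [Finset.sum_apply]
    have h3 : ∀ j : Fin 3, ∑ k, g k * (u k).1 j = 0 := by
      intro j
      have := congrFun (congrArg Prod.fst hg) j
      rw [Prod.fst_sum, Finset.sum_apply] at this
      simpa using this
    have h4 : ∀ j : Fin 2, ∑ k, g k * (u k).2 j = 0 := by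
      intro j
      have := congrFun (congrArg Prod.snd hg) j
      rw [Prod.snd_sum, Finset.sum_apply] at this
      simpa using this
    have a0 := h3 0
    have a1 := h3 1
    have a2 := h3 2
    have b0 := h4 0
    have b1 := h4 1
    rw [hu] at a0 a1 a2 b0 b1
    simp only [Matrix.cons_val_zero, Matrix.cons_val_one, Matrix.cons_val, Fin.sum_univ_three]
      at a0 a1 a2 b0 b1
    simp only [Pi.smul_apply, smul_eq_mul, Pi.zero_apply, Fin.sum_univ_three]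
    fin_cases i
    · simp only [Fin.zero_eta]
      linarith
    · simp only [Fin.mk_one]
      linarith
    · simp only [Fin.reduceFinMk]
      linarith
    · simp only [Fin.reduceFinMk]
      linarith
    · simp only [Fin.reduceFinMk]
      linarith
  have hnorm : ∀ k, ‖u k‖ ≤ 5 * X := by
    intro k
    have hb : ∀ n : ℤ, ∀ i, |(n : ℝ)| ≤ 5 * |(v k i : ℝ)| → ‖n‖ ≤ 5 * X := by
      intro n i hn
      have h5 : ‖n‖ = |(n : ℝ)| := rfl
      rw [h5]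
      linarith [hvX k i]
    have e5 : ∀ i, |((5 * v k i : ℤ) : ℝ)| ≤ 5 * |(v k i : ℝ)| := by
      intro i
      push_cast
      rw [abs_mul, abs_of_pos (by norm_num : (0 : ℝ) < 5)]
    have e2 : ∀ i, |((2 * v k i : ℤ) : ℝ)| ≤ 5 * |(v k i : ℝ)| := by
      intro i
      push_cast
      rw [abs_mul, abs_of_pos (by norm_num : (0 : ℝ) < 2)]
      linarith [abs_nonneg (v k i : ℝ)]
    rw [hu, Prod.norm_def, max_le_iff]
    constructor
    · rw [pi_norm_le_iff_of_nonneg (by positivity)]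
      intro j
      fin_cases j
      · exact hb _ 1 (e5 1)
      · exact hb _ 3 (e2 3)
      · exact hb _ 0 (e5 0)
    · rw [pi_norm_le_iff_of_nonneg (by positivity)]
      intro j
      fin_cases j
      · exact hb _ 2 (e5 2)
      · exact hb _ 4 (e5 4)
  obtain ⟨k, hk⟩ := h2 ![Z 3 / Z 2, Z 5 / Z 2] (5 * X) (by linarith) u huli hnorm
  refine ⟨k, ?_⟩
  have e1 : linr (![1, Z 2, Z 3] : Fin (2 + 1) → ℝ) ![Z 3 / Z 2, Z 5 / Z 2] (u k) =
      5 / Z 2 * form fun i => (v k i : ℝ) := by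
    unfold linr form
    rw [Fin.sum_univ_three, Fin.sum_univ_two, hu]
    simp only [Matrix.cons_val_zero, Matrix.cons_val_one, Matrix.cons_val]
    rw [Z4_eq]
    push_cast
    have := Z2_pos.ne'
    field_simp
    ring
  rw [e1, abs_mul, abs_of_pos (by have := Z2_pos; positivity)] at hk
  have h3 : 5 / Z 2 ≤ 5 := by
    rw [div_le_iff₀ Z2_pos]
    linarith [Z2_ge]
  have h4 : c' * (5 * X) ^ (-(((2 : ℕ) : ℝ) + (((2 : ℕ) : ℝ) + 1) * κ)) ≤
      5 * |form fun i => (v k i : ℝ)| := hk.trans (mul_le_mul_of_nonneg_right h3 (abs_nonneg _))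
  have e2 : -(((2 : ℕ) : ℝ) + (((2 : ℕ) : ℝ) + 1) * κ) = -(2 + 3 * κ) := by
    push_cast
    ring
  rw [e2, Real.mul_rpow (by norm_num) hX0.le, Real.rpow_neg (by norm_num : (0 : ℝ) ≤ 5)] at h4
  have h5 : c' / (5 * 5 ^ (2 + 3 * κ)) * X ^ (-(2 + 3 * κ)) * 5 =
      c' * ((5 ^ (2 + 3 * κ))⁻¹ * X ^ (-(2 + 3 * κ))) := by
    field_simp
  linarith

end Pool.Agent.R465.ZP
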